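import Pool.Agent.MP_9152e2_an.Pos.F

set_option autoImplicit false

open MeasureTheory Pool.Agent.MP_9152e2_an Pool.Agent.MP_9152e2_an.Pos

theorem Pool.Agent.Results.MP_9152e2_an.Classical.result
    (G X : Type) [Group G] [TopologicalSpace G] [IsTopologicalGroup G] [PolishSpace G]
    [MeasurableSpace G] [BorelSpace G] [MeasurableSpace X] [StandardBorelSpace X] [MulAction G X]
    (N : Subgroup G)
    (hN : N = (Subgroup.closure
      {s : G | IsDiffuse s ∨ FromUnitary s ∨ FromFull s ∨ FromL0 s}).topologicalClosure)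
    (μ : Measure X) [SigmaFinite μ] (hm : Measurable (fun p : G × X => p.1 • p.2))
    (hq : ∀ g : G, μ.map (fun x => g • x) ≪ μ) :
    (∀ᵐ x ∂μ, ∀ g ∈ N, g • x = x) ∧ (N = ⊤ → IsErgodicSpatial G X μ → μ = 0) := by
  have h : ∀ᵐ x ∂μ, ∀ g ∈ N, g • x = x := by
    subst hN
    exact (all_fix hm μ hq).mono fun x hx g hg => hx g (closure_sub hg)
  refine ⟨h, fun hT he => zero_of_fix (G := G) μ he.2.2.1 ?_ he.2.2.2.2⟩
  exact h.mono fun x hx g => hx g (hT ▸ Subgroup.mem_top g)
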