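import Pool.Agent.Mg.F9152e2.Gabdff2

set_option autoImplicit false

open MeasureTheory Pool.Agent.MP_9152e2_an

theorem Pool.Agent.Results.MP_9152e2_an.TypeIIinf.result :
    ∃ (G : Type) (_ : Group G) (_ : TopologicalSpace G) (_ : IsTopologicalGroup G)
      (_ : PolishSpace G) (_ : MeasurableSpace G) (_ : BorelSpace G), IsLevyGroup G ∧
      ∃ (X : Type) (_ : MeasurableSpace X) (_ : StandardBorelSpace X) (_ : MulAction G X)
        (μ : Measure X), IsErgodicSpatial G X μ ∧
        (∀ g : G, μ.map (fun x => g • x) = μ) ∧ μ Set.univ = ⊤ :=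
  typeIIinf
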